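import Pool.Agent.Lib.MP_a8a7e3_lc.Base

set_option autoImplicit false

open Set Topology

namespace Pool.Agent.MP_a8a7e3

/-- `ψ` is a monotone `Σ⁰₂` hull operation on the meager sets of `Y`. -/
structure IsMeagreHull {Y : Type} [TopologicalSpace Y] (ψ : Set Y → Set Y) : Prop where
  sigma : ∀ A, IsMeagre A → IsSigma2 (ψ A)
  meagre : ∀ A, IsMeagre A → IsMeagre (ψ A)
  subset : ∀ A, IsMeagre A → A ⊆ ψ A
  mono : ∀ A B, IsMeagre B → A ⊆ B → ψ A ⊆ ψ B

/-- The rank is unbounded (in `κ`) on the meager subsets of every nonempty open set. -/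
def LocUnbdd {Y : Type} [TopologicalSpace Y] (κ : Cardinal.{0}) (r : Set Y → Ordinal.{0}) : Prop :=
  ∀ O : Set Y, IsOpen O → O.Nonempty → ∀ α < κ.ord, ∃ A ⊆ O, IsMeagre A ∧ α < r A

/-- The Cantor space. -/
abbrev C : Type := ℕ → Fin 2

/-- The countable power of the Cantor space. -/
abbrev X : Type := ℕ → C

/-- Put `a` in front of the sequence `y`. -/
def cons (a : C) (y : X) : X := fun n => Nat.casesOn n a y

@[simp] lemma cons_zero (a : C) (y : X) : cons a y 0 = a := rfl

@[simp] lemma cons_succ (a : C) (y : X) (n : ℕ) : cons a y (n + 1) = y n := rfl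

/-- The section of `T` at `a`. -/
def sec (T : Set X) (a : C) : Set X := {y | cons a y ∈ T}

/-- The points of `C` with non-meager section. -/
def bad (T : Set X) : Set C := {a | ¬ IsMeagre (sec T a)}

/-- `D` is a sequence of closed meager sets with dense union such that every nonempty relatively
open piece of each `D m` has rank above `γ`. -/
structure IsBig (r : Set C → Ordinal.{0}) (γ : Ordinal.{0}) (D : ℕ → Set C) : Prop where
  closed : ∀ m, IsClosed (D m)
  meagre : ∀ m, IsMeagre (D m)
  dense : Dense (⋃ m, D m)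
  big : ∀ m (O : Set C), IsOpen O → (D m ∩ O).Nonempty → γ < r (D m ∩ O)

end Pool.Agent.MP_a8a7e3
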