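import Pool.Agent.Lib.MP_a8a7e3_lc.Mg.G001

set_option autoImplicit false

open Set Topology Filter Cardinal

namespace Pool.Agent.MP_a8a7e3

/-- No monotone `Σ⁰₂` hull operation on the meager subsets of the power of the Cantor space. -/
theorem no_hull_X (κ : ℕ → Cardinal.{0}) (hreg : ∀ i, (κ i).IsRegular) (hunc : ℵ₀ < κ 0)
    (hκ : StrictMono κ) (ρ : ℕ → Set C → Ordinal.{0}) (hρ : ∀ i, IsRank (κ i) (ρ i))
    (hu : ∀ i, LocUnbdd (κ i) (ρ i)) (ψ : Set X → Set X) (hψ : IsMeagreHull ψ) : False := by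
  classical
  -- the big closed sets
  have hDex : ∀ (i : ℕ) (γ : Ordinal.{0}), ∃ D : ℕ → Set C, γ < (κ i).ord → IsBig (ρ i) γ D := by
    intro i γ
    by_cases hγ : γ < (κ i).ord
    · obtain ⟨D, hD⟩ := exists_big (κ i) (ρ i) (hρ i) (hu i) γ hγ
      exact ⟨D, fun _ => hD⟩
    · exact ⟨fun _ => ∅, fun h => absurd h hγ⟩
  choose D hD using hDex
  -- an enumerated basis of the Cantor space
  obtain ⟨b, hbc, hbne, hb⟩ := TopologicalSpace.exists_countable_basis C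
  have hbne' : b.Nonempty := by
    by_contra hcon
    rw [not_nonempty_iff_eq_empty] at hcon
    have h1 : ⋃₀ b = Set.univ := hb.sUnion_eq
    rw [hcon, sUnion_empty] at h1
    have : (default : C) ∈ (∅ : Set C) := h1 ▸ mem_univ _
    exact this
  obtain ⟨B, hBr⟩ := hbc.exists_eq_range hbne'
  have hB : TopologicalSpace.IsTopologicalBasis (range B) := hBr ▸ hb
  have hBo : ∀ o, IsOpen (B o) := fun o => hB.isOpen (mem_range_self o)
  -- the cylinders
  set H : ℕ → Ordinal.{0} → Set C := fun n γ => ⋃ m, D n γ m with hH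
  set G : ℕ → Ordinal.{0} → Set X := fun n γ => {x | x n ∈ H n γ} with hG
  have hGm : ∀ n γ, γ < (κ n).ord → IsMeagre (G n γ) := by
    intro n γ hγ
    have h1 : IsMeagre (H n γ) := isMeagre_iUnion fun m => (hD n γ hγ).meagre m
    have h2 : IsOpenMap (fun x : X => x n) := isOpenMap_eval n
    exact h1.preimage_of_isOpenMap (continuous_apply n) h2
  obtain ⟨bd, hbd1, hbd2⟩ := exists_bound κ hreg hunc hκ ρ hρ D hD B hBo
  -- choose the `γ n`
  obtain ⟨γ, hγ1, hγ2⟩ := exists_gamma κ hreg hunc hκ (fun n γ i => if γ < (κ n).ord then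
    bd (ψ (G n γ)) i else 0) (by
      intro n γ i hγ
      simp only [if_pos hγ]
      exact hbd1 _ (hψ.meagre _ (hGm n γ hγ)) i)
  set Q : Set X := {x : X | ∀ i, x i ∈ ⋃ m, D i (γ i) m} with hQ
  have hQG : ∀ n, Q ⊆ G n (γ n) := fun n x hx => hx n
  have hQm : IsMeagre Q := (hGm 0 (γ 0) (hγ1 0)).mono (hQG 0)
  obtain ⟨E, hE, hEQ⟩ := hψ.sigma Q hQm
  obtain ⟨n, k, g, o, hne, hsub⟩ := main_baire B hB (fun i m => D i (γ i) m)
    (fun i m => (hD i (γ i) (hγ1 i)).closed m) (fun i => (hD i (γ i) (hγ1 i)).dense) E hE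
    ((hψ.subset Q hQm).trans hEQ.subset)
  have hT : ψ Q ⊆ ψ (G n (γ n)) := hψ.mono _ _ (hGm n (γ n) (hγ1 n)) (hQG n)
  refine hbd2 (ψ (G n (γ n))) (hψ.meagre _ (hGm n (γ n) (hγ1 n))) n γ g o (fun i _ => hγ1 i) ?_
    hne ?_
  · intro i hi
    have := hγ2 n i hi
    simpa only [if_pos (hγ1 n)] using this
  · refine hsub.trans (Subset.trans ?_ hT)
    rw [hEQ]
    exact subset_iUnion E k

/-- If there are monotone, countably subadditive and unbounded ranks on the meager ideal with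
values in infinitely many regular uncountable cardinals, then there is no monotone `Σ⁰₂` hull
operation on the sets with the Baire property. -/
theorem no_hull_real (κ : ℕ → Cardinal.{0}) (hreg : ∀ i, (κ i).IsRegular) (hunc : ℵ₀ < κ 0)
    (hκ : StrictMono κ) (r : ℕ → Set ℝ → Ordinal.{0}) (hr : ∀ i, IsRank (κ i) (r i))
    (hu : ∀ i, ∀ α < (κ i).ord, ∃ A, IsMeagre A ∧ α < r i A) :
    ¬ ∃ ψ, IsMonotoneHullOnBaire IsSigma2 ψ := by
  rintro ⟨ψ, hψ1, hψ2⟩
  have hex : ∀ i, ∃ ρ : Set C → Ordinal.{0}, IsRank (κ i) ρ ∧ LocUnbdd (κ i) ρ :=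
    fun i => rank_transfer_of exists_digit_map (κ i) (r i) (hr i) (hu i)
  choose ρ hρ hρu using hex
  obtain ⟨e, hec, he1, he2⟩ := exists_prod_map_of exists_digit_map
  have hBP : ∀ A : Set ℝ, IsMeagre A → HasBaireProperty A := fun A hA =>
    ⟨∅, isOpen_empty, by rw [show symmDiff A ∅ = A from symmDiff_bot A]; exact hA⟩
  refine no_hull_X κ hreg hunc hκ ρ hρ hρu (fun Q => e ⁻¹' (ψ (e '' Q))) ⟨?_, ?_, ?_, ?_⟩
  · intro A hA
    obtain ⟨F, hF, hFe⟩ := (hψ1 _ (hBP _ (he1 A hA))).1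
    refine ⟨fun n => e ⁻¹' (F n), fun n => (hF n).preimage hec, ?_⟩
    rw [hFe, preimage_iUnion]
  · intro A hA
    refine he2 _ ?_
    have h1 := (hψ1 _ (hBP _ (he1 A hA))).2.2
    refine (h1.union (he1 A hA)).mono ?_
    intro x hx
    by_cases hxA : x ∈ e '' A
    · exact Or.inr hxA
    · exact Or.inl ⟨hx, hxA⟩
  · intro A hA x hx
    exact (hψ1 _ (hBP _ (he1 A hA))).2.1 (mem_image_of_mem e hx)
  · intro A A' hA' hAA' x hx
    exact hψ2 _ _ (hBP _ (he1 A (hA'.mono hAA'))) (hBP _ (he1 A' hA')) (image_mono hAA') hx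

end Pool.Agent.MP_a8a7e3
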