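import Mathlib

set_option autoImplicit false

open Set Topology

namespace Pool.Agent.MP_a8a7e3

/-- `A` is a countable union of closed sets. -/
def IsSigma2 {Y : Type} [TopologicalSpace Y] (A : Set Y) : Prop :=
  ∃ F : ℕ → Set Y, (∀ n, IsClosed (F n)) ∧ A = ⋃ n, F n

/-- `A` is a countable intersection of `Σ⁰₂` sets. -/
def IsPi3 {Y : Type} [TopologicalSpace Y] (A : Set Y) : Prop :=
  ∃ F : ℕ → Set Y, (∀ n, IsSigma2 (F n)) ∧ A = ⋂ n, F n

/-- `A` has the Baire property: `A` differs from some open set by a meager set. -/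
def HasBaireProperty (A : Set ℝ) : Prop :=
  ∃ G : Set ℝ, IsOpen G ∧ IsMeagre (symmDiff A G)

/-- `ψ` is a monotone hull operation on the sets with the Baire property, with values in the
class `Γ`, with respect to the ideal of meager sets. -/
def IsMonotoneHullOnBaire (Γ : Set ℝ → Prop) (ψ : Set ℝ → Set ℝ) : Prop :=
  (∀ A, HasBaireProperty A → Γ (ψ A) ∧ A ⊆ ψ A ∧ IsMeagre (ψ A \ A)) ∧
    ∀ A B, HasBaireProperty A → HasBaireProperty B → A ⊆ B → ψ A ⊆ ψ B

/-- `r` is a monotone, countably subadditive rank on the meager sets of `Y` with values below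
the ordinal of `κ`. -/
structure IsRank {Y : Type} [TopologicalSpace Y] (κ : Cardinal.{0}) (r : Set Y → Ordinal.{0}) :
    Prop where
  mono : ∀ A B, IsMeagre B → A ⊆ B → r A ≤ r B
  lt : ∀ A, IsMeagre A → r A < κ.ord
  iUnion : ∀ (A : ℕ → Set Y) (α : Ordinal.{0}), (∀ n, IsMeagre (A n)) → (∀ n, r (A n) ≤ α) →
    r (⋃ n, A n) ≤ α

end Pool.Agent.MP_a8a7e3
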