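import Pool.Agent.Lib.MP_a8a7e3_lc.Base

set_option autoImplicit false

open Set Topology Filter Cardinal

namespace Pool.Agent.MP_a8a7e3

/-- `h` is a good scale of length `Λ` in the product of the ordinals `(κ n).ord`: increasing and
cofinal modulo finite, and every uncountable set of indices has an uncountable subset on which
`h` is increasing on a fixed final segment of `ℕ`. -/
structure IsGoodScale (κ : ℕ → Cardinal.{0}) (Λ : Ordinal.{0})
    (h : Ordinal.{0} → ℕ → Ordinal.{0}) : Prop where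
  lt : ∀ β < Λ, ∀ n, h β n < (κ n).ord
  incr : ∀ β β', β < β' → β' < Λ → ∀ᶠ n in atTop, h β n < h β' n
  cofinal : ∀ g : ℕ → Ordinal.{0}, (∀ n, g n < (κ n).ord) →
    ∃ β < Λ, ∀ᶠ n in atTop, g n ≤ h β n
  good : ∀ I : Set Ordinal.{0}, I ⊆ Iio Λ → ¬ I.Countable → ∃ I' ⊆ I, ¬ I'.Countable ∧
    ∃ n₀ : ℕ, ∀ β ∈ I', ∀ β' ∈ I', β < β' → ∀ n ≥ n₀, h β n ≤ h β' n

/-- The poset (pointwise order) of all functions in the product of the `(κ n).ord` which agree
with some `h β`, `β < Λ`, at all but finitely many places. -/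
abbrev ScalePoset (κ : ℕ → Cardinal.{0}) (Λ : Ordinal.{0}) (h : Ordinal.{0} → ℕ → Ordinal.{0}) :
    Type 1 :=
  {s : ℕ → Ordinal.{0} // (∀ n, s n < (κ n).ord) ∧ ∃ β < Λ, ∀ᶠ n in atTop, s n = h β n}


end Pool.Agent.MP_a8a7e3
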