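import Pool.Agent.Lib.MP_a8a7e3_lc.Defs

set_option autoImplicit false

open Set Topology Filter Cardinal

namespace Pool.Agent.MP_a8a7e3

/-! ### T11: closure properties of the two classes -/

lemma T11_sigma2_of_isClosed {A : Set ℝ} (hA : IsClosed A) : IsSigma2 A :=
  ⟨fun _ => A, fun _ => hA, (iUnion_const A).symm⟩

lemma T11_sigma2_union_closed {A B : Set ℝ} (hA : IsClosed A) (hB : IsSigma2 B) :
    IsSigma2 (A ∪ B) := by
  obtain ⟨F, hF, rfl⟩ := hB
  refine ⟨fun n => A ∪ F n, fun n => hA.union (hF n), ?_⟩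
  ext x
  simp only [mem_union, mem_iUnion]
  constructor
  · rintro (h | ⟨n, hn⟩)
    · exact ⟨0, Or.inl h⟩
    · exact ⟨n, Or.inr hn⟩
  · rintro ⟨n, h | h⟩
    · exact Or.inl h
    · exact Or.inr ⟨n, h⟩

lemma T11_pi3_union_closed {A B : Set ℝ} (hA : IsClosed A) (hB : IsPi3 B) : IsPi3 (A ∪ B) := by
  obtain ⟨F, hF, rfl⟩ := hB
  exact ⟨fun n => A ∪ F n, fun n => T11_sigma2_union_closed hA (hF n), union_iInter A F⟩

lemma T11_pi3_iInter {A : ℕ → Set ℝ} (hA : ∀ n, IsPi3 (A n)) : IsPi3 (⋂ n, A n) := by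
  choose F hF hAF using hA
  refine ⟨fun k => F k.unpair.1 k.unpair.2, fun k => hF _ _, ?_⟩
  ext x
  simp only [mem_iInter]
  constructor
  · intro hx k
    have h := hx k.unpair.1
    rw [hAF, mem_iInter] at h
    exact h _
  · intro hx n
    rw [hAF n, mem_iInter]
    intro m
    simpa using hx (Nat.pair n m)

lemma T11_pi3_univ : IsPi3 (univ : Set ℝ) :=
  ⟨fun _ => univ, fun _ => T11_sigma2_of_isClosed isClosed_univ, iInter_univ.symm⟩

lemma T11_pi3_of_sigma2 {A : Set ℝ} (hA : IsSigma2 A) : IsPi3 A :=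
  ⟨fun _ => A, fun _ => hA, (iInter_const A).symm⟩

lemma T11_pi3_iInter_countable {ι : Type*} {A : ι → Set ℝ} {T : Set ι} (hT : T.Countable)
    (hA : ∀ i ∈ T, IsPi3 (A i)) : IsPi3 (⋂ i ∈ T, A i) := by
  rcases T.eq_empty_or_nonempty with rfl | hne
  · simpa using T11_pi3_univ
  · obtain ⟨f, rfl⟩ := hT.exists_eq_range hne
    rw [biInter_range]
    exact T11_pi3_iInter fun n => hA _ ⟨n, rfl⟩

/-! ### T11: the largest open set on which a set is meager -/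

/-- The union of all open sets `V` with `A ∩ V` meager. -/
def T11_mgOpen (A : Set ℝ) : Set ℝ := ⋃₀ {V : Set ℝ | IsOpen V ∧ IsMeagre (A ∩ V)}

lemma T11_subset_mgOpen {A V : Set ℝ} (hV : IsOpen V) (hm : IsMeagre (A ∩ V)) :
    V ⊆ T11_mgOpen A :=
  subset_sUnion_of_mem (show V ∈ {V : Set ℝ | IsOpen V ∧ IsMeagre (A ∩ V)} from ⟨hV, hm⟩)

lemma T11_isMeagre_closure_diff {U : Set ℝ} (hU : IsOpen U) : IsMeagre (closure U \ U) := by
  apply IsNowhereDense.isMeagre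
  have hc : IsClosed (closure U \ U) := isClosed_closure.sdiff hU
  rw [hc.isNowhereDense_iff, eq_empty_iff_forall_notMem]
  intro x hx
  have hx' : x ∈ closure U := (interior_subset hx).1
  obtain ⟨y, hy1, hy2⟩ := mem_closure_iff.mp hx' _ isOpen_interior hx
  exact absurd hy2 (interior_subset hy1).2

lemma T11_isMeagre_compl_mgOpen_diff {A : Set ℝ} (hA : HasBaireProperty A) :
    IsMeagre ((T11_mgOpen A)ᶜ \ A) := by
  obtain ⟨U, hU, hAU⟩ := hA
  have h1 : (closure U)ᶜ ⊆ T11_mgOpen A := by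
    apply T11_subset_mgOpen isClosed_closure.isOpen_compl
    refine hAU.mono ?_
    intro x hx
    exact Or.inl ⟨hx.1, fun h => hx.2 (subset_closure h)⟩
  refine ((T11_isMeagre_closure_diff hU).union hAU).mono ?_
  intro x hx
  have hxU : x ∈ closure U := by
    by_contra h
    exact hx.1 (h1 h)
  by_cases h : x ∈ U
  · exact Or.inr (Or.inr ⟨h, hx.2⟩)
  · exact Or.inl ⟨hxU, h⟩

/-! ### T11: the intersection of all members of the family above a set -/

/-- The intersection of all members of the family which contain `Q`. -/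
def T11_Phi {S : Type 1} (F : S → Set ℝ) (Q : Set ℝ) : Set ℝ := ⋂ s ∈ {s | Q ⊆ F s}, F s

lemma T11_subset_Phi {S : Type 1} (F : S → Set ℝ) (Q : Set ℝ) : Q ⊆ T11_Phi F Q :=
  subset_iInter₂ fun _ hs => hs

lemma T11_Phi_subset {S : Type 1} {F : S → Set ℝ} {Q : Set ℝ} {s : S} (h : Q ⊆ F s) :
    T11_Phi F Q ⊆ F s :=
  iInter₂_subset (s := fun s (_ : s ∈ {s | Q ⊆ F s}) => F s) s h

lemma T11_Phi_mono {S : Type 1} (F : S → Set ℝ) {P Q : Set ℝ} (h : P ⊆ Q) :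
    T11_Phi F P ⊆ T11_Phi F Q :=
  subset_iInter₂ fun _ hs => T11_Phi_subset (h.trans hs)

lemma T11_pi3_Phi {S : Type 1} [Preorder S] (F : S → Set ℝ) (hF : ∀ s, IsSigma2 (F s))
    (hmono : Monotone F)
    (hgen : ∀ A : Set S, ∃ A₀ ⊆ A, A₀.Countable ∧ ∀ a ∈ A, ∃ b ∈ A₀, b ≤ a) (Q : Set ℝ) :
    IsPi3 (T11_Phi F Q) := by
  obtain ⟨A₀, hA₀, hc, hb⟩ := hgen {s | Q ⊆ F s}
  have h : T11_Phi F Q = ⋂ s ∈ A₀, F s := by
    refine subset_antisymm ?_ ?_
    · exact subset_iInter₂ fun s hs => T11_Phi_subset (hA₀ hs)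
    · refine subset_iInter₂ fun a ha => ?_
      obtain ⟨b, hb₀, hba⟩ := hb a ha
      exact (iInter₂_subset b hb₀).trans (hmono hba)
  rw [h]
  exact T11_pi3_iInter_countable hc fun s _ => T11_pi3_of_sigma2 (hF s)

/-- T11 -/
theorem pi3_hull {S : Type 1} [Preorder S] (F : S → Set ℝ) (hF : ∀ s, IsSigma2 (F s))
    (hFm : ∀ s, IsMeagre (F s)) (hmono : Monotone F) (hcof : ∀ A, IsMeagre A → ∃ s, A ⊆ F s)
    (hgen : ∀ A : Set S, ∃ A₀ ⊆ A, A₀.Countable ∧ ∀ a ∈ A, ∃ b ∈ A₀, b ≤ a) :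
    ∃ ψ, IsMonotoneHullOnBaire IsPi3 ψ := by
  obtain ⟨b, hbc, -, hb⟩ := TopologicalSpace.exists_countable_basis ℝ
  have hcount : ∀ A : Set ℝ, {V | V ∈ b ∧ IsMeagre (A ∩ V)}.Countable := fun A =>
    hbc.mono fun V hV => hV.1
  refine ⟨fun A => ⋂ V ∈ {V | V ∈ b ∧ IsMeagre (A ∩ V)}, (Vᶜ ∪ T11_Phi F (A ∩ V)), ?_, ?_⟩
  · intro A hA
    refine ⟨?_, ?_, ?_⟩
    · exact T11_pi3_iInter_countable (hcount A) fun V hV =>
        T11_pi3_union_closed (hb.isOpen hV.1).isClosed_compl (T11_pi3_Phi F hF hmono hgen _)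
    · refine subset_iInter₂ fun V hV x hx => ?_
      by_cases hxV : x ∈ V
      · exact Or.inr (T11_subset_Phi F _ ⟨hx, hxV⟩)
      · exact Or.inl hxV
    · have hm : IsMeagre (⋃ V ∈ {V | V ∈ b ∧ IsMeagre (A ∩ V)}, T11_Phi F (A ∩ V)) := by
        refine isMeagre_biUnion (hcount A) fun V hV => ?_
        obtain ⟨s, hs⟩ := hcof _ hV.2
        exact (hFm s).mono (T11_Phi_subset hs)
      refine ((T11_isMeagre_compl_mgOpen_diff hA).union hm).mono ?_
      rintro x ⟨hx, hxA⟩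
      by_cases hxm : x ∈ T11_mgOpen A
      · right
        obtain ⟨W, ⟨hWo, hWm⟩, hxW⟩ := mem_sUnion.mp hxm
        obtain ⟨V, hVb, hxV, hVW⟩ := hb.mem_nhds_iff.mp (hWo.mem_nhds hxW)
        have hVm : IsMeagre (A ∩ V) := hWm.mono (inter_subset_inter_right _ hVW)
        have hV : V ∈ {V | V ∈ b ∧ IsMeagre (A ∩ V)} := ⟨hVb, hVm⟩
        refine mem_iUnion₂.mpr ⟨V, hV, ?_⟩
        rcases mem_iInter₂.mp hx V hV with h | h
        · exact absurd hxV h
        · exact h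
      · exact Or.inl ⟨hxm, hxA⟩
  · intro A B _ _ hAB
    refine subset_iInter₂ fun V hV x hx => ?_
    have hV' : V ∈ {V | V ∈ b ∧ IsMeagre (A ∩ V)} :=
      ⟨hV.1, hV.2.mono (inter_subset_inter_left _ hAB)⟩
    rcases mem_iInter₂.mp hx V hV' with h | h
    · exact Or.inl h
    · exact Or.inr (T11_Phi_mono F (inter_subset_inter_left _ hAB) h)

end Pool.Agent.MP_a8a7e3
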