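import Pool.Agent.Lib.MP_a8a7e3_lc.Scale

set_option autoImplicit false

open Set Topology Filter Cardinal

namespace Pool.Agent.MP_a8a7e3

/-- T12 -/
theorem scale_rank (κ : ℕ → Cardinal.{0}) (hreg : ∀ i, (κ i).IsRegular) (hunc : ℵ₀ < κ 0)
    (hκ : StrictMono κ) (Λ : Ordinal.{0}) (h : Ordinal.{0} → ℕ → Ordinal.{0})
    (hs : IsGoodScale κ Λ h) (F : ScalePoset κ Λ h → Set ℝ) (hFm : ∀ s, IsMeagre (F s))
    (hiso : ∀ s t, F s ⊆ F t ↔ s ≤ t) (hcof : ∀ A, IsMeagre A → ∃ s, A ⊆ F s) (i : ℕ) :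
    ∃ r : Set ℝ → Ordinal.{0}, IsRank (κ i) r ∧ ∀ α < (κ i).ord, ∃ A, IsMeagre A ∧ α < r A := by
  have hunc' : ∀ n, ℵ₀ < κ n := fun n => hunc.trans_le (hκ.monotone (Nat.zero_le n))
  let V : Set ℝ → Set Ordinal.{0} := fun Q => {o | ∃ s : ScalePoset κ Λ h, Q ⊆ F s ∧ s.1 i = o}
  have hVne : ∀ Q, IsMeagre Q → (V Q).Nonempty := by
    intro Q hQ
    obtain ⟨s, hs'⟩ := hcof Q hQ
    exact ⟨s.1 i, s, hs', rfl⟩
  have hatt : ∀ Q, IsMeagre Q → ∃ s : ScalePoset κ Λ h, Q ⊆ F s ∧ s.1 i = sInf (V Q) :=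
    fun Q hQ => csInf_mem (hVne Q hQ)
  refine ⟨fun Q => sInf (V Q), ⟨?_, ?_, ?_⟩, ?_⟩
  · intro A B hB hAB
    apply csInf_le_csInf' (hVne B hB)
    rintro o ⟨s, hs1, hs2⟩
    exact ⟨s, hAB.trans hs1, hs2⟩
  · intro A hA
    obtain ⟨s, -, hs2⟩ := hatt A hA
    rw [← hs2]
    exact s.2.1 i
  · intro A α hA hα
    choose s hsA hsi using fun k => hatt (A k) (hA k)
    let g : ℕ → Ordinal.{0} := fun n => ⨆ k, (s k).1 n
    have hbdd : ∀ n, BddAbove (range fun k => (s k).1 n) := fun n =>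
      ⟨(κ n).ord, by rintro _ ⟨k, rfl⟩; exact ((s k).2.1 n).le⟩
    have hg : ∀ n, g n < (κ n).ord := by
      intro n
      apply Ordinal.iSup_lt_of_lt_cof
      · rw [(hreg n).cof_ord, mk_nat]
        exact hunc' n
      · exact fun k => (s k).2.1 n
    have hsg : ∀ k n, (s k).1 n ≤ g n := fun k n => le_ciSup (hbdd n) k
    obtain ⟨β, hβ, hev⟩ := hs.cofinal g hg
    obtain ⟨N, hN⟩ := eventually_atTop.mp hev
    let t : ℕ → Ordinal.{0} := fun n => if n = i ∨ n < N then g n else h β n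
    have ht : (∀ n, t n < (κ n).ord) ∧ ∃ β < Λ, ∀ᶠ n in atTop, t n = h β n := by
      constructor
      · intro n
        change (if n = i ∨ n < N then g n else h β n) < _
        split_ifs
        · exact hg n
        · exact hs.lt β hβ n
      · refine ⟨β, hβ, ?_⟩
        filter_upwards [eventually_ge_atTop (max (i + 1) N)] with n hn
        have h1 : ¬ (n = i ∨ n < N) := by
          have := le_max_left (i + 1) N
          have := le_max_right (i + 1) N
          omega
        change (if n = i ∨ n < N then g n else h β n) = _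
        rw [if_neg h1]
    have hst : ∀ k, s k ≤ (⟨t, ht⟩ : ScalePoset κ Λ h) := by
      intro k
      change (s k).1 ≤ t
      intro n
      change _ ≤ (if n = i ∨ n < N then g n else h β n)
      split_ifs with h1
      · exact hsg k n
      · push Not at h1
        exact (hsg k n).trans (hN n h1.2)
    have hsub : (⋃ k, A k) ⊆ F ⟨t, ht⟩ := by
      apply iUnion_subset
      intro k
      exact (hsA k).trans ((hiso _ _).mpr (hst k))
    have h1 : sInf (V (⋃ k, A k)) ≤ t i := csInf_le' ⟨⟨t, ht⟩, hsub, rfl⟩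
    refine h1.trans ?_
    change (if i = i ∨ i < N then g i else h β i) ≤ α
    rw [if_pos (Or.inl rfl)]
    apply ciSup_le'
    intro k
    rw [hsi k]
    exact hα k
  · intro α hα
    obtain ⟨β, hβ, -⟩ := hs.cofinal (fun _ => 0)
      (fun n => by
        rw [Cardinal.lt_ord]
        simpa using (aleph0_pos.trans (hunc' n)))
    let t : ℕ → Ordinal.{0} := fun n => if n = i then Order.succ α else h β n
    have ht : (∀ n, t n < (κ n).ord) ∧ ∃ β < Λ, ∀ᶠ n in atTop, t n = h β n := by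
      constructor
      · intro n
        change (if n = i then Order.succ α else h β n) < _
        split_ifs with h1
        · subst h1
          exact (Cardinal.isSuccLimit_ord (hunc' n).le).succ_lt hα
        · exact hs.lt β hβ n
      · refine ⟨β, hβ, ?_⟩
        filter_upwards [eventually_ge_atTop (i + 1)] with n hn
        change (if n = i then Order.succ α else h β n) = _
        rw [if_neg (by omega)]
    refine ⟨F ⟨t, ht⟩, hFm _, ?_⟩
    obtain ⟨s, hs1, hs2⟩ := hatt (F ⟨t, ht⟩) (hFm _)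
    change α < sInf (V (F ⟨t, ht⟩))
    rw [← hs2]
    have h2 : (⟨t, ht⟩ : ScalePoset κ Λ h) ≤ s := (hiso _ _).mp hs1
    have h3 : t i ≤ s.1 i := h2 i
    refine lt_of_lt_of_le ?_ h3
    change α < (if i = i then Order.succ α else h β i)
    rw [if_pos rfl]
    exact Order.lt_succ α

end Pool.Agent.MP_a8a7e3
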