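import Pool.Agent.Lib.MP_a8a7e3_lc.Scale

set_option autoImplicit false

open Set Topology Filter Cardinal

namespace Pool.Agent.MP_a8a7e3

/-- an injective sequence in a well order has an increasing subsequence -/
theorem T13_seq {α : Type*} (r : α → α → Prop) [IsWellOrder α r] (f : ℕ → α)
    (hf : Function.Injective f) : ∃ g : ℕ → ℕ, StrictMono g ∧ ∀ k l, k < l →
      r (f (g k)) (f (g l)) := by
  obtain ⟨g, hg⟩ := exists_increasing_or_nonincreasing_subseq r f
  refine ⟨g, g.strictMono, ?_⟩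
  rcases hg with hg | hg
  · exact hg
  · exfalso
    obtain ⟨n, hn⟩ := WellFounded.not_rel_apply_succ (r := r) (fun n => f (g n))
    have h1 := hg n (n + 1) (Nat.lt_succ_self n)
    have h2 : f (g n) ≠ f (g (n + 1)) := fun h =>
      absurd (g.injective (hf h)) (Nat.lt_succ_self n).ne
    rcases trichotomous_of r (f (g n)) (f (g (n + 1))) with h | h | h
    · exact h1 h
    · exact h2 h
    · exact hn h

/-- Dickson's lemma for finitely many ordinal coordinates -/
theorem T13_dickson (m : ℕ) (F : ℕ → ℕ → Ordinal.{0}) :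
    ∃ k l, k < l ∧ ∀ j < m, F k j ≤ F l j := by
  obtain ⟨k, l, hkl, h2⟩ := wellQuasiOrdered_le (α := Fin m → Ordinal.{0}) (fun k j => F k j)
  exact ⟨k, l, hkl, fun j hj => h2 ⟨j, hj⟩⟩

/-- T13 -/
theorem scale_gen (κ : ℕ → Cardinal.{0}) (Λ : Ordinal.{0}) (h : Ordinal.{0} → ℕ → Ordinal.{0})
    (hs : IsGoodScale κ Λ h) (A : Set (ScalePoset κ Λ h)) :
    ∃ A₀ ⊆ A, A₀.Countable ∧ ∀ a ∈ A, ∃ b ∈ A₀, b ≤ a := by
  classical
  choose β hβΛ hβ using fun a : ScalePoset κ Λ h => a.2.2
  simp only [eventually_atTop] at hβ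
  choose N hN using hβ
  -- the well founded relation
  let φ : ScalePoset κ Λ h → Ordinal.{0} × ScalePoset κ Λ h := fun a => (β a, a)
  let R := InvImage (Prod.Lex (· < · : Ordinal.{0} → Ordinal.{0} → Prop)
    (WellOrderingRel : ScalePoset κ Λ h → ScalePoset κ Λ h → Prop)) φ
  have hwf : WellFounded R := InvImage.wf _ (IsWellFounded.wf)
  have hR : ∀ a b, R a b ↔ β a < β b ∨ (β a = β b ∧ WellOrderingRel a b) := by
    intro a b
    exact Prod.lex_def
  let An : ℕ → Set (ScalePoset κ Λ h) := fun n => {a ∈ A | N a ≤ n}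
  let G : ℕ → Set (ScalePoset κ Λ h) := fun n => {a ∈ An n | ∀ a' ∈ An n, a' ≤ a → ¬ R a' a}
  have hcoin : ∀ n, ∀ a ∈ An n, ∃ b ∈ G n, b ≤ a := by
    intro n a ha
    obtain ⟨b, hb, hmin⟩ := hwf.has_min {a' ∈ An n | a' ≤ a} ⟨a, ha, le_rfl⟩
    exact ⟨b, ⟨hb.1, fun a' ha' hle hr => hmin a' ⟨ha', hle.trans hb.2⟩ hr⟩, hb.2⟩
  -- the contradiction
  have hcontra : ∀ n m : ℕ, ∀ a : ℕ → ScalePoset κ Λ h, (∀ k, a k ∈ G n) →
      (∀ k l, k < l → R (a k) (a l)) →
      (∀ k l, k < l → ∀ j ≥ m, (a k).1 j ≤ (a l).1 j) → False := by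
    intro n m a ha hr hle
    obtain ⟨k, l, hkl, h2⟩ := T13_dickson m (fun k j => (a k).1 j)
    refine (ha l).2 (a k) (ha k).1 ?_ (hr k l hkl)
    intro j
    by_cases hj : j < m
    · exact h2 j hj
    · exact hle k l hkl j (not_lt.mp hj)
  have hcount : ∀ n, (G n).Countable := by
    intro n
    by_contra hunc
    by_cases hc : (β '' G n).Countable
    · -- some fibre is uncountable
      have : ∃ b ∈ β '' G n, ¬ {a ∈ G n | β a = b}.Countable := by
        by_contra hno
        push Not at hno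
        apply hunc
        have h1 : G n = ⋃ b ∈ β '' G n, {a ∈ G n | β a = b} := by
          ext a
          simp only [mem_iUnion]
          constructor
          · intro ha
            exact ⟨β a, ⟨a, ha, rfl⟩, ha, rfl⟩
          · rintro ⟨b, _, ha, _⟩
            exact ha
        rw [h1]
        exact hc.biUnion hno
      obtain ⟨b, _, hb⟩ := this
      have hinf : {a ∈ G n | β a = b}.Infinite := fun hf => hb hf.countable
      let e := hinf.natEmbedding
      obtain ⟨g, hg, hgr⟩ := T13_seq WellOrderingRel (fun k => ((e k : _) : ScalePoset κ Λ h))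
        (fun x y hxy => e.injective (Subtype.ext hxy))
      refine hcontra n n (fun k => (e (g k)).1) (fun k => (e (g k)).2.1) ?_ ?_
      · intro k l hkl
        rw [hR]
        right
        refine ⟨?_, hgr k l hkl⟩
        rw [(e (g k)).2.2, (e (g l)).2.2]
      · intro k l hkl j hj
        have h1 := (e (g k)).2
        have h2 := (e (g l)).2
        have e1 := hN (e (g k)).1 j (le_trans h1.1.1.2 hj)
        have e2 := hN (e (g l)).1 j (le_trans h2.1.1.2 hj)
        rw [e1, e2, h1.2, h2.2]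
    · obtain ⟨I', hI', hI'c, n₀, hn₀⟩ := hs.good (β '' G n)
        (by rintro _ ⟨a, _, rfl⟩; exact hβΛ a) hc
      have hinf : I'.Infinite := fun hf => hI'c hf.countable
      let e := hinf.natEmbedding
      have hex : ∀ k, ∃ a ∈ G n, β a = (e k : Ordinal.{0}) := fun k => hI' (e k).2
      choose a haG haβ using hex
      obtain ⟨g, hg, hgr⟩ := T13_seq (α := Ordinal.{0}) (r := (· < ·)) (fun k => ((e k : _) : Ordinal.{0}))
        (fun x y hxy => e.injective (Subtype.ext hxy))
      refine hcontra n (max n n₀) (fun k => a (g k)) (fun k => haG _) ?_ ?_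
      · intro k l hkl
        rw [hR]
        left
        rw [haβ, haβ]
        exact hgr k l hkl
      · intro k l hkl j hj
        have e1 := hN (a (g k)) j ((haG (g k)).1.2.trans ((le_max_left _ _).trans hj))
        have e2 := hN (a (g l)) j ((haG (g l)).1.2.trans ((le_max_left _ _).trans hj))
        rw [e1, e2, haβ, haβ]
        exact hn₀ _ (e (g k)).2 _ (e (g l)).2 (hgr k l hkl) j ((le_max_right _ _).trans hj)
  refine ⟨⋃ n, G n, ?_, countable_iUnion hcount, ?_⟩
  · intro a ha
    obtain ⟨n, hn⟩ := mem_iUnion.mp ha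
    exact hn.1.1
  · intro a ha
    obtain ⟨b, hb, hba⟩ := hcoin (N a) a ⟨ha, le_rfl⟩
    exact ⟨b, mem_iUnion.mpr ⟨_, hb⟩, hba⟩

end Pool.Agent.MP_a8a7e3
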